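import Mathlib
import Pool.Agent.H330.Ramsey

/-!
# Structures with values, hereditary classes, free sets
-/

set_option autoImplicit false

namespace Pool.Agent.K1H66.TV

open Set

/-- Structures on `ℕ`: for every `i` a function `x i` of `a i` variables with values in `Z i`. -/
abbrev Str (a : ℕ → ℕ) (Z : ℕ → Type) : Type := (i : ℕ) → (Fin (a i) → ℕ) → Z i

/-- Structures on `{0, ..., n - 1}`. -/
abbrev FS (a : ℕ → ℕ) (Z : ℕ → Type) (n : ℕ) : Type := (i : ℕ) → (Fin (a i) → Fin n) → Z i

variable {a : ℕ → ℕ} {Z : ℕ → Type}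

/-- The structure induced by `x` on the tuple `t`. -/
def ind (n : ℕ) (x : Str a Z) (t : Fin n → ℕ) : FS a Z n := fun i u => x i (t ∘ u)

/-- The structure induced by `x` along `e : ℕ → ℕ`. -/
def pull (x : Str a Z) (e : ℕ → ℕ) : Str a Z := fun i u => x i (e ∘ u)

theorem ind_pull (n : ℕ) (x : Str a Z) (e : ℕ → ℕ) (t : Fin n → ℕ) :
    ind n (pull x e) t = ind n x (e ∘ t) := rfl

/-- The initial segment of a structure. -/
def ini (n : ℕ) (x : Str a Z) : FS a Z n := ind n x (fun k => (k : ℕ))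

theorem ini_pull_congr (n : ℕ) (x : Str a Z) (e e' : ℕ → ℕ) (h : ∀ i < n, e i = e' i) :
    ini n (pull x e) = ini n (pull x e') := by
  funext i u
  show x i _ = x i _
  congr 1
  funext k
  exact h _ (u k).2

/-- enumerate an infinite set with prescribed beginning -/
theorem exists_enum (m : ℕ) (f : ℕ → ℕ) (hf : InjOn f (Iio m)) (D : Set ℕ) (hD : D.Infinite)
    (hfD : ∀ i < m, f i ∈ D) :
    ∃ e : ℕ → ℕ, Function.Injective e ∧ range e = D ∧ ∀ i < m, e i = f i := by
  classical
  let D' : Set ℕ := D \ (f '' Iio m)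
  have hD' : D'.Infinite := hD.sdiff ((finite_Iio m).image f)
  let g : ℕ → ℕ := Nat.nth (· ∈ D')
  have hg : Function.Injective g := Nat.nth_injective hD'
  have hgD : ∀ k, g k ∈ D' := fun k => Nat.nth_mem_of_infinite hD' k
  have hgr : range g = D' := Nat.range_nth_of_infinite hD'
  refine ⟨fun i => if i < m then f i else g (i - m), ?_, ?_, ?_⟩
  · intro i j hij
    dsimp only at hij
    by_cases hi : i < m <;> by_cases hj : j < m
    · rw [if_pos hi, if_pos hj] at hij
      exact hf hi hj hij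
    · rw [if_pos hi, if_neg hj] at hij
      exact absurd ⟨i, hi, hij⟩ (hgD (j - m)).2
    · rw [if_neg hi, if_pos hj] at hij
      exact absurd ⟨j, hj, hij.symm⟩ (hgD (i - m)).2
    · rw [if_neg hi, if_neg hj] at hij
      have := hg hij
      omega
  · ext d
    constructor
    · rintro ⟨i, rfl⟩
      dsimp only
      by_cases hi : i < m
      · rw [if_pos hi]; exact hfD i hi
      · rw [if_neg hi]; exact (hgD _).1
    · intro hd
      by_cases h : d ∈ f '' Iio m
      · obtain ⟨i, hi, rfl⟩ := h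
        exact ⟨i, by simp only [if_pos (show i < m from hi)]⟩
      · have : d ∈ D' := ⟨hd, h⟩
        rw [← hgr] at this
        obtain ⟨k, hk⟩ := this
        refine ⟨k + m, ?_⟩
        dsimp only
        rw [if_neg (by omega), Nat.add_sub_cancel, hk]
  · intro i hi
    dsimp only
    rw [if_pos hi]

/-- If every enumeration of `ℕ` puts `x` into one of the sets `{y | ∀ n, ini n y ∈ Θ k n}`, then
all enumerations with some prescribed beginning put `x` into the same one. -/
theorem exists_force (x : Str a Z) (Θ : ℕ → (n : ℕ) → Set (FS a Z n))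
    (h : ∀ e : ℕ → ℕ, Function.Bijective e → ∃ k, ∀ n, ini n (pull x e) ∈ Θ k n) :
    ∃ (k m : ℕ) (f : ℕ → ℕ), InjOn f (Iio m) ∧
      ∀ e : ℕ → ℕ, Function.Bijective e → (∀ i < m, e i = f i) → ∀ n, ini n (pull x e) ∈ Θ k n := by
  by_contra hcon
  push Not at hcon
  -- one step
  have step : ∀ (k : ℕ) (p : {p : ℕ × (ℕ → ℕ) // InjOn p.2 (Iio p.1)}),
      ∃ q : {p : ℕ × (ℕ → ℕ) // InjOn p.2 (Iio p.1)}, p.1.1 < q.1.1 ∧
        (∀ i < p.1.1, q.1.2 i = p.1.2 i) ∧ Function.Bijective q.1.2 ∧
        (∃ n ≤ q.1.1, ini n (pull x q.1.2) ∉ Θ k n) ∧ ∃ i < q.1.1, q.1.2 i = k := by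
    rintro k ⟨⟨m, f⟩, hf⟩
    obtain ⟨e, he, hef, n, hn⟩ := hcon k m f hf
    obtain ⟨i, hi⟩ := he.2 k
    refine ⟨⟨(max (m + 1) (max n (i + 1)), e), he.1.injOn⟩, ?_, hef, he, ⟨n, ?_, hn⟩, i, ?_, hi⟩
    · exact lt_of_lt_of_le (Nat.lt_succ_self m) (le_max_left _ _)
    · exact (le_max_left _ _).trans (le_max_right _ _)
    · exact lt_of_lt_of_le (Nat.lt_succ_self i) ((le_max_right _ _).trans (le_max_right _ _))
  choose F hF1 hF2 hF3 hF4 hF5 using step
  let s : ℕ → {p : ℕ × (ℕ → ℕ) // InjOn p.2 (Iio p.1)} :=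
    fun k => Nat.rec ⟨(0, id), fun i hi => absurd hi (Nat.not_lt_zero i)⟩ (fun k p => F k p) k
  have hs : ∀ k, s (k + 1) = F k (s k) := fun k => rfl
  have hlt : ∀ k, (s k).1.1 < (s (k + 1)).1.1 := fun k => hF1 k (s k)
  have hmono : StrictMono fun k => (s k).1.1 := strictMono_nat_of_lt_succ hlt
  have hagree : ∀ k l, k ≤ l → ∀ i < (s k).1.1, (s l).1.2 i = (s k).1.2 i := by
    intro k l hkl
    induction l, hkl using Nat.le_induction with
    | base => intro i _; rfl
    | succ l hkl ih =>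
      intro i hi
      rw [hs, hF2 l (s l) i (lt_of_lt_of_le hi (hmono.monotone hkl)), ih i hi]
  have hge : ∀ k, k ≤ (s k).1.1 := hmono.id_le
  let e : ℕ → ℕ := fun i => (s (i + 1)).1.2 i
  have he : ∀ k, ∀ i < (s k).1.1, e i = (s k).1.2 i := by
    intro k i hi
    rcases le_total k (i + 1) with h1 | h1
    · exact hagree k (i + 1) h1 i hi
    · exact (hagree (i + 1) k h1 i (lt_of_lt_of_le (Nat.lt_succ_self i) (hge _))).symm
  have hbij : Function.Bijective e := by
    constructor
    · intro i j hij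
      have h1 : i < (s (max i j + 1)).1.1 := lt_of_lt_of_le (show i < max i j + 1 by omega) (hge _)
      have h2 : j < (s (max i j + 1)).1.1 :=
        lt_of_lt_of_le (show j < max i j + 1 by omega) (hge _)
      rw [he (max i j + 1) i h1, he (max i j + 1) j h2] at hij
      exact (s (max i j + 1)).2 h1 h2 hij
    · intro k
      obtain ⟨i, hi, hik⟩ := hF5 k (s k)
      refine ⟨i, ?_⟩
      rw [he (k + 1) i hi]
      exact hik
  obtain ⟨k, hk⟩ := h e hbij
  obtain ⟨n, hn, hn2⟩ := hF4 k (s k)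
  apply hn2
  have := hk n
  rwa [ini_pull_congr n x e (F k (s k)).1.2 (fun i hi => he (k + 1) i (lt_of_lt_of_le hi hn))] at this

/-- Hereditary closure: substructures which contain a suitable finite set. -/
theorem exists_hered (x : Str a Z) (Θ : ℕ → (n : ℕ) → Set (FS a Z n))
    (h : ∀ e : ℕ → ℕ, Function.Bijective e → ∃ k, ∀ n, ini n (pull x e) ∈ Θ k n) :
    ∃ s : Finset ℕ, ∀ D : Set ℕ, D.Infinite → (∀ i ∈ s, i ∈ D) →
      ∃ e : ℕ → ℕ, Function.Injective e ∧ range e = D ∧ ∃ k, ∀ n, ini n (pull x e) ∈ Θ k n := by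
  obtain ⟨k, m, f, hf, hk⟩ := exists_force x Θ h
  refine ⟨(Finset.range m).image f, fun D hD hsD => ?_⟩
  obtain ⟨e, he1, he2, he3⟩ := exists_enum m f hf D hD
    (fun i hi => hsD _ (Finset.mem_image_of_mem f (Finset.mem_range.2 hi)))
  refine ⟨e, he1, he2, k, fun n => ?_⟩
  obtain ⟨e', h1, h2, h3⟩ := exists_enum (max m n) e he1.injOn univ infinite_univ
    (fun _ _ => mem_univ _)
  have := hk e' ⟨h1, range_eq_univ.1 h2⟩
    (fun i hi => (h3 i (lt_of_lt_of_le hi (le_max_left _ _))).trans (he3 i hi)) n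
  rwa [ini_pull_congr n x e' e (fun i hi => h3 i (lt_of_lt_of_le hi (le_max_right _ _)))] at this

/-! ### Free sets -/

/-- Let `T` be a function of `n` variables in `ℕ`, `U j` pairwise disjoint sets and `t j` tuples.
Then there are many sets `D` (unions of the ranges of tuples `t j`, `j ∈ A`, and the finite set `s`)
for which the `j` such that `T` has a value in `U j` on `D` are under control. -/
theorem exists_free {W : Type} (n : ℕ) (T : (Fin n → ℕ) → W) (U : ℕ → Set W)
    (hU : ∀ i j, i ≠ j → Disjoint (U i) (U j)) (t : ℕ → Fin n → ℕ) (s : Finset ℕ) :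
    ∃ H : Set ℕ, H.Infinite ∧ ∀ A ⊆ H, A.Nonempty →
      ∀ w : Fin n → ℕ, (∀ i, w i ∈ s ∨ ∃ j ∈ A, ∃ c, w i = t j c) →
        ∀ j ∈ H, T w ∈ U j → j ∈ A := by
  classical
  -- words
  let wd : (Fin n → ({y // y ∈ s} ⊕ Fin n)) → (Fin n → ℕ) → (Fin n → ℕ) := fun q l i =>
    match q i with
    | Sum.inl y => y.1
    | Sum.inr c => t (l i) c
  let col : Finset ℕ → Set ((Fin n → ({y // y ∈ s} ⊕ Fin n)) × (Fin n → Fin (n + 1)) × Fin (n + 1)) :=
    fun X => if h : X.card = n + 1 then
      {p | T (wd p.1 (fun i => X.orderEmbOfFin h (p.2.1 i))) ∈ U (X.orderEmbOfFin h p.2.2)} else ∅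
  obtain ⟨H, c, hH, hc⟩ := Pool.Agent.H330.infinite_ramsey (n + 1) col
  refine ⟨H, hH, ?_⟩
  -- enumeration of `H`
  let g : ℕ → ℕ := Nat.nth (· ∈ H)
  have hg : StrictMono g := Nat.nth_strictMono hH
  have hgH : ∀ k, g k ∈ H := fun k => Nat.nth_mem_of_infinite hH k
  -- subsets given by increasing functions
  have hsub : ∀ (v : Fin (n + 1) → ℕ), StrictMono v → (∀ i, v i ∈ H) → ∀ p,
      (p ∈ c ↔ T (wd p.1 (fun i => v (p.2.1 i))) ∈ U (v p.2.2)) := by
    intro v hv hvH p
    have hcard : (Finset.univ.image v).card = n + 1 := by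
      rw [Finset.card_image_of_injective _ hv.injective]
      simp
    have h1 := hc (Finset.univ.image v) hcard (by
      intro y hy
      simp only [Finset.coe_image, Finset.coe_univ, image_univ, mem_range] at hy
      obtain ⟨i, rfl⟩ := hy
      exact hvH i)
    have h2 : v = (Finset.univ.image v).orderEmbOfFin hcard :=
      Finset.orderEmbOfFin_unique hcard (fun i => Finset.mem_image_of_mem v (Finset.mem_univ i)) hv
    rw [← h1]
    simp only [col, hcard, dif_pos, mem_ofPred_eq]
    rw [← h2]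
  have hpi : ∀ p ∈ c, p.2.2 ∈ range p.2.1 := by
    intro p hp
    by_contra hm
    let v : Fin (n + 1) → ℕ := fun i => g (2 * i)
    let v' : Fin (n + 1) → ℕ := fun i => if i = p.2.2 then g (2 * i + 1) else g (2 * i)
    have hv : StrictMono v := by
      intro i j hij
      apply hg
      have : (i : ℕ) < j := hij
      omega
    have hv' : StrictMono v' := by
      intro i j hij
      have hij' : (i : ℕ) < j := hij
      by_cases h1 : i = p.2.2 <;> by_cases h2 : j = p.2.2 <;> simp only [v', h1, h2, if_true, if_false]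
      · rw [h1, h2] at hij; exact absurd hij (lt_irrefl _)
      · rw [← h1]; apply hg; omega
      · rw [← h2]; apply hg; omega
      · apply hg; omega
    have h1 := (hsub v hv (fun i => hgH _) p).1 hp
    have h2 := (hsub v' hv' (fun i => by
      by_cases h : i = p.2.2
      · simp only [v', h, if_true]; exact hgH _
      · simp only [v', h, if_false]; exact hgH _) p).1 hp
    have h3 : (fun i => v' (p.2.1 i)) = fun i => v (p.2.1 i) := by
      funext i
      have : p.2.1 i ≠ p.2.2 := fun h => hm ⟨i, h⟩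
      simp only [v', v, this, if_false]
    rw [h3] at h2
    have h4 : v p.2.2 ≠ v' p.2.2 := by
      simp only [v, v', if_true]
      exact (hg (Nat.lt_succ_self _)).ne
    exact disjoint_left.1 (hU _ _ h4) h1 h2
  intro A hA hne w hw j hj hTw
  obtain ⟨a0, ha0⟩ := hne
  by_contra hjA
  have hw' : ∀ i, ∃ (q : {y // y ∈ s} ⊕ Fin n) (l : ℕ), l ∈ A ∧ w i = match q with
      | Sum.inl y => y.1
      | Sum.inr c => t l c := by
    intro i
    rcases hw i with h | ⟨l, hl, c, hc⟩
    · exact ⟨Sum.inl ⟨w i, h⟩, a0, ha0, rfl⟩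
    · exact ⟨Sum.inr c, l, hl, hc⟩
  choose q l hl hwq using hw'
  -- a finite subset of `H` with `n + 1` elements that contains the indices and `j`
  let Y : Finset ℕ := insert j (Finset.univ.image l)
  have hYH : (↑Y : Set ℕ) ⊆ H := by
    intro y hy
    simp only [Y, Finset.coe_insert, Finset.coe_image, Finset.coe_univ, image_univ,
      mem_insert_iff, mem_range] at hy
    rcases hy with rfl | ⟨i, rfl⟩
    · exact hj
    · exact hA (hl i)
  have hYc : Y.card ≤ n + 1 := by
    refine (Finset.card_insert_le _ _).trans ?_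
    have := Finset.card_image_le (s := (Finset.univ : Finset (Fin n))) (f := l)
    simp only [Finset.card_univ, Fintype.card_fin] at this
    omega
  obtain ⟨Q, hQ1, hQ2⟩ := (hH.sdiff Y.finite_toSet).exists_subset_card_eq (n + 1 - Y.card)
  have hdisj : Disjoint Y Q := by
    rw [Finset.disjoint_left]
    intro y hy hy2
    exact (hQ1 hy2).2 hy
  have hX : (Y ∪ Q).card = n + 1 := by
    rw [Finset.card_union_of_disjoint hdisj, hQ2]
    omega
  let v := (Y ∪ Q).orderEmbOfFin hX
  have hvH : ∀ i, v i ∈ H := by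
    intro i
    have := Finset.orderEmbOfFin_mem (Y ∪ Q) hX i
    rcases Finset.mem_union.1 this with h | h
    · exact hYH h
    · exact (hQ1 h).1
  have hvr : ∀ y ∈ Y ∪ Q, ∃ i, v i = y := by
    intro y hy
    have h1 : y ∈ range v := by
      rw [Finset.range_orderEmbOfFin]
      exact hy
    exact h1
  have hπ : ∀ i, ∃ k, v k = l i := fun i => hvr _ (Finset.mem_union_left _
    (Finset.mem_insert_of_mem (Finset.mem_image_of_mem l (Finset.mem_univ i))))
  choose π hπ using hπ
  obtain ⟨k, hk⟩ := hvr j (Finset.mem_union_left _ (Finset.mem_insert_self _ _))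
  have hp : ((q, π, k) : (Fin n → ({y // y ∈ s} ⊕ Fin n)) × (Fin n → Fin (n + 1)) × Fin (n + 1)) ∈ c := by
    rw [hsub v v.strictMono hvH]
    have h1 : wd q (fun i => v (π i)) = w := by
      funext i
      rw [hwq i]
      simp only [wd, hπ]
    simp only [h1, hk]
    exact hTw
  obtain ⟨i, hi⟩ := hpi _ hp
  apply hjA
  have h5 : v (π i) = v k := congrArg v hi
  rw [hπ, hk] at h5
  rw [← h5]
  exact hl i

end Pool.Agent.K1H66.TV
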