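import Pool.Agent.K1H66.TV.Sigma

/-!
# Compact groups of local transformations
-/

set_option autoImplicit false

namespace Pool.Agent.K1H66.TV

open Set Filter Topology

variable {a : ℕ → ℕ} {Z : ℕ → Type}

/-- The action of `N` on the space of structures is local: an initial segment of the image depends
only on the initial segment of the structure; and it is normalised by the permutations. -/
structure Local (a : ℕ → ℕ) (Z : ℕ → Type) (N : Type) [Group N] [MulAction N (Str a Z)] : Prop where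
  loc : ∀ (ν : N) (n : ℕ) (x y : Str a Z), ini n x = ini n y → ini n (ν • x) = ini n (ν • y)
  norm : ∀ (ν : N) (σ : Equiv.Perm ℕ), ∃ ν' : N, ∀ x : Str a Z, pull (ν • x) σ = ν' • pull x σ

theorem pull_pull (x : Str a Z) (e f : ℕ → ℕ) : pull (pull x e) f = pull x (e ∘ f) := rfl

theorem pull_symm (x : Str a Z) (σ : Equiv.Perm ℕ) : pull (pull x σ) σ.symm = x := by
  rw [pull_pull]
  have : (σ : ℕ → ℕ) ∘ σ.symm = id := by funext i; simp
  rw [this]
  rfl

theorem pull_symm' (x : Str a Z) (σ : Equiv.Perm ℕ) : pull (pull x σ.symm) σ = x := by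
  rw [pull_pull]
  have : (σ.symm : ℕ → ℕ) ∘ σ = id := by funext i; simp
  rw [this]
  rfl

/-- a bijection which extends an injection on an initial segment -/
theorem exists_perm (m : ℕ) (e : ℕ → ℕ) (he : Function.Injective e) :
    ∃ σ : Equiv.Perm ℕ, ∀ i < m, σ i = e i := by
  obtain ⟨f, h1, h2, h3⟩ := exists_enum m e he.injOn univ infinite_univ (fun _ _ => mem_univ _)
  exact ⟨Equiv.ofBijective f ⟨h1, range_eq_univ.1 h2⟩, h3⟩

section

variable {N : Type} [Group N] [MulAction N (Str a Z)] (hN : Local a Z N)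

include hN

theorem norm' (ν : N) (σ : Equiv.Perm ℕ) : ∃ ν' : N, ∀ x : Str a Z,
    ν • pull x σ = pull (ν' • x) σ := by
  obtain ⟨ν', h⟩ := hN.norm ν σ.symm
  refine ⟨ν', fun x => ?_⟩
  have h1 := h (pull x σ)
  rw [pull_symm] at h1
  rw [← h1, pull_symm']

variable [∀ i, TopologicalSpace (Z i)] [∀ i, PolishSpace (Z i)]

omit hN in
/-- the structure whose values are the orbits of the induced structures -/
noncomputable def star (N : Type) [Group N] [MulAction N (Str a Z)] (x : Str a Z) :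
    Str (fun n => n) (fun _ => ℕ → Bool) :=
  fun n w k => @decide (Function.Injective w ∧ ∃ ν : N, ind n (ν • x) w ∈ Q a Z n k)
    (Classical.propDecidable _)

omit hN in
theorem star_eq_true (x : Str a Z) (n : ℕ) (w : Fin n → ℕ) (k : ℕ) :
    star N x n w k = true ↔ Function.Injective w ∧ ∃ ν : N, ind n (ν • x) w ∈ Q a Z n k :=
  @decide_eq_true_iff _ (Classical.propDecidable _)

omit hN in
theorem star_ext {x y : Str a Z} {n : ℕ} {w v : Fin n → ℕ}
    (h : ∀ k, (Function.Injective w ∧ ∃ ν : N, ind n (ν • x) w ∈ Q a Z n k) ↔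
      (Function.Injective v ∧ ∃ ν : N, ind n (ν • y) v ∈ Q a Z n k)) :
    star N x n w = star N y n v := by
  classical
  funext k
  unfold star
  rw [decide_eq_decide]
  exact h k

omit hN in
theorem star_smul (μ : N) (x : Str a Z) : star N (μ • x) = star N x := by
  funext n w
  refine star_ext fun k => and_congr_right fun _ => ?_
  constructor
  · rintro ⟨ν, h⟩
    exact ⟨ν * μ, by rwa [mul_smul]⟩
  · rintro ⟨ν, h⟩
    exact ⟨ν * μ⁻¹, by rwa [mul_smul, inv_smul_smul]⟩

omit hN [∀ i, TopologicalSpace (Z i)] [∀ i, PolishSpace (Z i)] in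
theorem ini_apply_eq {m : ℕ} {x y : Str a Z} (h : ini m x = ini m y) (i : ℕ) (t : Fin (a i) → ℕ)
    (ht : ∀ k, t k < m) : x i t = y i t :=
  congrFun (congrFun h i) (fun k => ⟨t k, ht k⟩)

omit hN [∀ i, TopologicalSpace (Z i)] [∀ i, PolishSpace (Z i)] in
theorem ind_eq_of_ini {m : ℕ} {x y : Str a Z} (h : ini m x = ini m y) (n : ℕ) (w : Fin n → ℕ)
    (hw : ∀ k, w k < m) : ind n x w = ind n y w := by
  funext i u
  exact ini_apply_eq h i (w ∘ u) (fun k => hw _)

/-- the values depend only on initial segments -/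
theorem star_local {m : ℕ} {x y : Str a Z} (h : ini m x = ini m y) (n : ℕ) (w : Fin n → ℕ)
    (hw : ∀ k, w k < m) : star N x n w = star N y n w := by
  refine star_ext fun k => and_congr_right fun _ => exists_congr fun ν => ?_
  rw [ind_eq_of_ini (hN.loc ν m x y h) n w hw]

theorem star_perm (x : Str a Z) (σ : Equiv.Perm ℕ) :
    star N (pull x σ) = pull (star N x) σ := by
  funext n w
  show star N (pull x σ) n w = star N x n (σ ∘ w)
  refine star_ext fun k => ?_
  rw [σ.injective.of_comp_iff]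
  refine and_congr_right fun _ => ?_
  constructor
  · rintro ⟨ν, h⟩
    obtain ⟨ν', h'⟩ := norm' hN ν σ
    refine ⟨ν', ?_⟩
    rw [h'] at h
    exact h
  · rintro ⟨ν, h⟩
    obtain ⟨ν', h'⟩ := hN.norm ν σ
    refine ⟨ν', ?_⟩
    rw [← h']
    exact h

theorem star_pull (x : Str a Z) (e : ℕ → ℕ) (he : Function.Injective e) :
    star N (pull x e) = pull (star N x) e := by
  funext n w
  obtain ⟨M, hM⟩ := (finite_range w).bddAbove
  have hM' : ∀ k, w k < M + 1 := fun k => Nat.lt_succ_of_le (hM ⟨k, rfl⟩)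
  obtain ⟨σ, hσ⟩ := exists_perm (M + 1) e he
  rw [star_local hN (ini_pull_congr (M + 1) x e σ (fun i hi => (hσ i hi).symm)) n w hM',
    star_perm hN]
  show star N x n (σ ∘ w) = star N x n (e ∘ w)
  have : (σ : ℕ → ℕ) ∘ w = e ∘ w := by
    funext k
    exact hσ _ (hM' k)
  rw [this]

omit hN [∀ i, TopologicalSpace (Z i)] [∀ i, PolishSpace (Z i)] in
theorem ini_ext {x y : Str a Z} (h : ∀ n, ini n x = ini n y) : x = y := by
  funext i t
  obtain ⟨M, hM⟩ := (finite_range t).bddAbove
  exact ini_apply_eq (h (M + 1)) i t (fun k => Nat.lt_succ_of_le (hM ⟨k, rfl⟩))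

omit hN [∀ i, PolishSpace (Z i)] in
theorem continuous_ini (n : ℕ) : Continuous (fun x : Str a Z => ini n x) := continuous_ind n _

variable [TopologicalSpace N] [CompactSpace N] [ContinuousSMul N (Str a Z)]

omit hN in
/-- equal values: the initial segments are in the same orbit -/
theorem exists_of_star {x y : Str a Z} {n : ℕ}
    (h : star N x n (fun k => (k : ℕ)) = star N y n (fun k => (k : ℕ))) :
    ∃ ν : N, ini n (ν • x) = ini n y := by
  by_contra hcon
  have hcont : Continuous (fun ν : N => ini n (ν • x)) :=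
    (continuous_ini n).comp (continuous_id.smul continuous_const)
  have hcl : IsClosed (range (fun ν : N => ini n (ν • x))) := (isCompact_range hcont).isClosed
  obtain ⟨k, hk1, hk2⟩ := Q_base n (ini n y) _ hcl.isOpen_compl (fun ⟨ν, hν⟩ => hcon ⟨ν, hν⟩)
  have h1 : star N y n (fun k => (k : ℕ)) k = true := by
    rw [star_eq_true]
    exact ⟨Fin.val_injective, 1, by rw [one_smul]; exact hk1⟩
  rw [← h, star_eq_true] at h1
  obtain ⟨-, ν, hν⟩ := h1
  exact hk2 hν ⟨ν, rfl⟩

omit hN in
theorem exists_of_star_all {x y : Str a Z} (h : star N x = star N y) : ∃ ν : N, ν • x = y := by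
  have h1 : ∀ n, ∃ ν : N, ini n (ν • x) = ini n y := fun n => exists_of_star (by rw [h])
  choose ν hν using h1
  -- a cluster point
  obtain ⟨μ, -, hμ⟩ := (isCompact_univ (X := N)).exists_clusterPt (f := map ν atTop) (by simp)
  refine ⟨μ, ini_ext fun n => ?_⟩
  have hcont : Continuous (fun ν : N => ini n (ν • x)) :=
    (continuous_ini n).comp (continuous_id.smul continuous_const)
  have h2 : MapClusterPt μ atTop ν := hμ
  have h3 : MapClusterPt (ini n (μ • x)) atTop (fun m => ini n (ν m • x)) :=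
    MapClusterPt.continuousAt_comp (f := fun ν : N => ini n (ν • x)) hcont.continuousAt h2
  by_contra hne
  have h4 : ∀ᶠ m in atTop, ini n (ν m • x) = ini n y := by
    filter_upwards [eventually_ge_atTop n] with m hm
    funext i u
    exact ini_apply_eq (hν m) i (fun k => (u k : ℕ)) (fun k => lt_of_lt_of_le (u k).2 hm)
  have h5 := h3.frequently (isOpen_compl_singleton.mem_nhds (show ini n (μ • x) ∈ ({ini n y}ᶜ : Set _) from hne))
  obtain ⟨m, hm1, hm2⟩ := (h5.and_eventually h4).exists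
  exact hm1 hm2

omit hN [CompactSpace N] in
theorem polish_cantor : PolishSpace (ℕ → Bool) := by
  have h : SecondCountableTopology (ℕ → Bool) := inferInstance
  have h2 : TopologicalSpace.IsCompletelyMetrizableSpace (ℕ → Bool) := by
    have : ∀ i : ℕ, TopologicalSpace.IsCompletelyMetrizableSpace ((fun _ : ℕ => Bool) i) :=
      fun _ => inferInstance
    exact TopologicalSpace.IsCompletelyMetrizableSpace.pi_countable
  infer_instance

omit hN [CompactSpace N] in
theorem star_measurable [∀ i, MeasurableSpace (Z i)] [∀ i, BorelSpace (Z i)] :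
    Measurable (star N : Str a Z → Str (fun n => n) (fun _ => ℕ → Bool)) := by
  refine measurable_pi_lambda _ fun n => measurable_pi_lambda _ fun w =>
    measurable_pi_lambda _ fun k => measurable_to_bool ?_
  by_cases hw : Function.Injective w
  · have h : (fun x : Str a Z => star N x n w k) ⁻¹' {true} =
        ⋃ ν : N, (fun x => ind n (ν • x) w) ⁻¹' Q a Z n k := by
      ext x
      simp only [mem_preimage, mem_singleton_iff, star_eq_true, mem_iUnion]
      exact ⟨fun h => h.2, fun h => ⟨hw, h⟩⟩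
    rw [h]
    exact (isOpen_iUnion fun ν => (Q_open n k).preimage
      ((continuous_ind n w).comp (continuous_const_smul ν))).measurableSet
  · have h : (fun x : Str a Z => star N x n w k) ⁻¹' {true} = ∅ := by
      ext x
      simp only [mem_preimage, mem_singleton_iff, star_eq_true, mem_empty_iff_false, iff_false]
      exact fun h => hw h.1
    rw [h]
    exact MeasurableSet.empty

/-- coherent choices -/
theorem koenig (Θ : (n : ℕ) → Set (FS a Z n))
    (hΘ : ∀ n (ν : N) (x : Str a Z), ini n x ∈ Θ n → ini n (ν • x) ∈ Θ n)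
    (z : Str (fun n => n) (fun _ => ℕ → Bool))
    (hz : ∀ n, ∃ y : Str a Z, ini n z = ini n (star N y) ∧ ini n y ∈ Θ n) :
    ∃ y : Str a Z, star N y = z ∧ ∀ n, ini n y ∈ Θ n := by
  choose y hy1 hy2 using hz
  have h1 : ∀ n, ∃ μ : N, ini n (μ • y (n + 1)) = ini n (y n) := by
    intro n
    apply exists_of_star
    have h2 : z n (fun k => (k : ℕ)) = star N (y n) n (fun k => (k : ℕ)) :=
      ini_apply_eq (hy1 n) n (fun k => (k : ℕ)) (fun k => k.2)
    have h3 : z n (fun k => (k : ℕ)) = star N (y (n + 1)) n (fun k => (k : ℕ)) :=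
      ini_apply_eq (hy1 (n + 1)) n (fun k => (k : ℕ)) (fun k => lt_of_lt_of_le k.2 (Nat.le_succ n))
    rw [← h3, h2]
  choose μ hμ using h1
  let M : ℕ → N := fun n => Nat.rec 1 (fun n p => p * μ n) n
  have hM : ∀ n, M (n + 1) = M n * μ n := fun n => rfl
  have hstep : ∀ n, ini n (M (n + 1) • y (n + 1)) = ini n (M n • y n) := by
    intro n
    rw [hM, mul_smul]
    exact hN.loc (M n) n _ _ (hμ n)
  have hcoh : ∀ n m, n ≤ m → ini n (M m • y m) = ini n (M n • y n) := by
    intro n m hnm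
    induction m, hnm using Nat.le_induction with
    | base => rfl
    | succ m hnm ih =>
      rw [← ih]
      funext i u
      exact ini_apply_eq (hstep m) i (fun k => (u k : ℕ)) (fun k => lt_of_lt_of_le (u k).2 hnm)
  let bd : ∀ i, (Fin (a i) → ℕ) → ℕ := fun i t => (Finset.univ.sup t) + 1
  have hbd : ∀ i (t : Fin (a i) → ℕ) k, t k < bd i t := fun i t k =>
    Nat.lt_succ_of_le (Finset.le_sup (f := t) (Finset.mem_univ k))
  let v : Str a Z := fun i t => (M (bd i t) • y (bd i t)) i t
  have hv : ∀ n, ini n v = ini n (M n • y n) := by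
    intro n
    funext i u
    show (M (bd i _) • y (bd i _)) i _ = (M n • y n) i _
    rcases le_total (bd i (fun k => (u k : ℕ))) n with h | h
    · exact (ini_apply_eq (hcoh _ _ h) i (fun k => (u k : ℕ)) (hbd i _)).symm
    · exact ini_apply_eq (hcoh _ _ h) i (fun k => (u k : ℕ)) (fun k => (u k).2)
  refine ⟨v, ?_, fun n => ?_⟩
  · funext n w
    obtain ⟨B, hB⟩ := (finite_range w).bddAbove
    have hB' : ∀ k, w k < B + 1 := fun k => Nat.lt_succ_of_le (hB ⟨k, rfl⟩)
    rw [star_local hN (hv (B + 1)) n w hB', star_smul]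
    exact (ini_apply_eq (hy1 (B + 1)) n w hB').symm
  · rw [hv]
    exact hΘ n _ _ (hy2 n)

omit hN in
theorem IsoBy.symm {b : ℕ → ℕ} {Y : ℕ → Type} {σ : Equiv.Perm ℕ} {x y : Str b Y}
    (h : IsoBy σ x y) : IsoBy σ.symm y x := by
  rw [isoBy_iff] at h ⊢
  rw [h, pull_symm]

omit hN in
theorem IsoBy.trans {b : ℕ → ℕ} {Y : ℕ → Type} {σ τ : Equiv.Perm ℕ} {x y z : Str b Y}
    (h : IsoBy σ x y) (h' : IsoBy τ y z) : IsoBy (σ.trans τ) x z := by
  rw [isoBy_iff] at h h' ⊢
  rw [h, h']
  rfl

omit hN [∀ i, TopologicalSpace (Z i)] [∀ i, PolishSpace (Z i)] [TopologicalSpace N]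
  [CompactSpace N] [ContinuousSMul N (Str a Z)] in
/-- same orbit of the group generated by `N` and the permutations -/
def SameOrb (N : Type) [Group N] [MulAction N (Str a Z)] (x y : Str a Z) : Prop :=
  ∃ (ν : N) (σ : Equiv.Perm ℕ), y = ν • pull x σ

theorem sameOrb_iff (x y : Str a Z) :
    SameOrb N x y ↔ ∃ σ : Equiv.Perm ℕ, IsoBy σ (star N y) (star N x) := by
  constructor
  · rintro ⟨ν, σ, rfl⟩
    refine ⟨σ, ?_⟩
    rw [isoBy_iff, star_smul, star_perm hN]
  · rintro ⟨σ, hσ⟩
    rw [isoBy_iff, ← star_perm hN] at hσ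
    obtain ⟨ν, hν⟩ := exists_of_star_all hσ.symm
    exact ⟨ν, σ, hν.symm⟩

/-- **The dichotomy with a compact group of local transformations.** -/
theorem gauge [∀ i, MeasurableSpace (Z i)] [∀ i, BorelSpace (Z i)]
    (Θ : ℕ → (n : ℕ) → Set (FS a Z n)) (hΘ : ∀ k n, MeasurableSet (Θ k n))
    (hΘN : ∀ k n (ν : N) (x : Str a Z), ini n x ∈ Θ k n → ini n (ν • x) ∈ Θ k n)
    (hi : Invt (Cls Θ)) :
    (∃ C : Set (Str a Z), C.Countable ∧ ∀ y ∈ Cls Θ, ∃ c ∈ C, SameOrb N c y) ∨
    (∃ g : (ℕ → Bool) → Str a Z, Continuous g ∧ (∀ c, g c ∈ Cls Θ) ∧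
      ∀ c d, SameOrb N (g c) (g d) → c = d) := by
  classical
  have hpol : ∀ i : ℕ, PolishSpace ((fun _ : ℕ => ℕ → Bool) i) := fun _ => polish_cantor
  by_cases hfew : ∃ g : (ℕ → Bool) → Str a Z, Continuous g ∧ (∀ c, g c ∈ Cls Θ) ∧
      ∀ c d, SameOrb N (g c) (g d) → c = d
  · exact Or.inr hfew
  left
  have hB : MeasurableSet (Cls Θ) := by
    have : Cls Θ = ⋃ k, ⋂ n, (fun x : Str a Z => ini n x) ⁻¹' Θ k n := by
      ext x; simp [Cls]
    rw [this]
    exact MeasurableSet.iUnion fun k => MeasurableSet.iInter fun n =>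
      (continuous_ind n _).measurable (hΘ k n)
  have hPhi : Measurable (fun y : Str a Z => Phi (star N y)) :=
    phi_measurable.comp star_measurable
  have hcount : ((fun y => Phi (star N y)) '' Cls Θ).Countable := by
    by_contra hc
    obtain ⟨g, hg1, hg2, hg3⟩ := borel_perfect hPhi hB hc
    refine hfew ⟨g, hg1, hg2, fun c d hcd => hg3 ?_⟩
    obtain ⟨σ, hσ⟩ := (sameOrb_iff hN _ _).1 hcd
    exact (phi_iso hσ).symm
  have hfin : ∀ x ∈ Cls Θ, ∀ n, (range (ind n (star N x))).Finite := by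
    intro x hx n
    by_contra h
    obtain ⟨s, hs⟩ := hered Θ hi x hx
    exact unc_gen (Cls Θ) (star N) (fun x e he => star_pull hN x e he) x s hs n h hcount
  have hpc : ∀ x ∈ Cls Θ, ∃ C : Set (Str a Z), C.Countable ∧ ∀ y ∈ Cls Θ,
      (∀ n w, ind n (star N y) w ∈ range (ind n (star N x))) → ∃ c ∈ C, SameOrb N c y := by
    intro x hx
    -- the class of the structures `star y`
    let Θ' : ℕ → (n : ℕ) → Set (FS (fun n => n) (fun _ => ℕ → Bool) n) := fun k n =>
      {q | q ∈ range (ind n (star N x)) ∧ ∃ y : Str a Z, q = ini n (star N y) ∧ ini n y ∈ Θ k n}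
    have hcls : ∀ z, z ∈ Cls Θ' ↔ ∃ y ∈ Cls Θ, star N y = z ∧
        ∀ n, ini n z ∈ range (ind n (star N x)) := by
      intro z
      constructor
      · rintro ⟨k, hk⟩
        obtain ⟨y, hy1, hy2⟩ := koenig hN (Θ k) (hΘN k) z (fun n => (hk n).2)
        exact ⟨y, ⟨k, hy2⟩, hy1, fun n => (hk n).1⟩
      · rintro ⟨y, ⟨k, hk⟩, rfl, h⟩
        exact ⟨k, fun n => ⟨h n, y, rfl, hk n⟩⟩
    have hinv : Invt (Cls Θ') := by
      intro z hz σ
      obtain ⟨y, hy1, rfl, hy3⟩ := (hcls z).1 hz
      refine (hcls _).2 ⟨pull y σ, hi y hy1 σ, star_perm hN y σ, fun n => ?_⟩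
      -- an initial segment of the renumbered structure is induced in a larger initial segment
      obtain ⟨M, hM⟩ := (finite_range (fun k : Fin n => σ k)).bddAbove
      obtain ⟨w, hw⟩ := hy3 (M + 1)
      refine ⟨w ∘ (fun k : Fin n => (⟨σ k, Nat.lt_succ_of_le (hM ⟨k, rfl⟩)⟩ : Fin (M + 1))), ?_⟩
      funext i u
      exact congrFun (congrFun hw i)
        ((fun k : Fin n => (⟨σ k, Nat.lt_succ_of_le (hM ⟨k, rfl⟩)⟩ : Fin (M + 1))) ∘ u)
    rcases main Θ' (fun k n => ((hfin x hx n).subset fun q hq => hq.1).measurableSet) hinv with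
      ⟨C', hC1, hC2⟩ | ⟨g, hg1, hg2, hg3⟩
    · -- representatives
      let rep : Str (fun n => n) (fun _ => ℕ → Bool) → Str a Z := fun c =>
        if h : ∃ y ∈ Cls Θ, ∃ σ : Equiv.Perm ℕ, IsoBy σ c (star N y) then h.choose else x
      refine ⟨rep '' C', hC1.image _, fun y hy hyx => ?_⟩
      obtain ⟨c, hc, σ, hσ⟩ := hC2 (star N y) ((hcls _).2 ⟨y, hy, rfl, fun n => hyx n _⟩)
      have h : ∃ y ∈ Cls Θ, ∃ σ : Equiv.Perm ℕ, IsoBy σ c (star N y) := ⟨y, hy, σ, hσ⟩
      refine ⟨rep c, ⟨c, hc, rfl⟩, (sameOrb_iff hN _ _).2 ?_⟩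
      have h2 : rep c = h.choose := by simp only [rep, dif_pos h]
      obtain ⟨-, τ, hτ⟩ := h.choose_spec
      rw [h2]
      exact ⟨_, hσ.symm.trans hτ⟩
    · exfalso
      apply hfew
      let B' : Set (Str a Z) := Cls Θ ∩ (star N) ⁻¹' (range g)
      have hgm : MeasurableSet (range g) := (isCompact_range hg1).isClosed.measurableSet
      have hB' : MeasurableSet B' := hB.inter (star_measurable hgm)
      have hsub : range g ⊆ star N '' B' := by
        rintro _ ⟨c, rfl⟩
        obtain ⟨y, hy1, hy2, -⟩ := (hcls _).1 (hg2 c)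
        exact ⟨y, ⟨hy1, c, hy2.symm⟩, hy2⟩
      have hgi : Function.Injective g := by
        intro c d hcd
        apply hg3
        refine ⟨1, ?_⟩
        rw [hcd]
        exact fun _ _ => rfl
      have hunc : ¬ (star N '' B').Countable := by
        intro h
        have h1 := h.mono hsub
        have h2 : Countable (ℕ → Bool) := by
          have : Countable (range g) := h1
          exact (rangeFactorization_injective.2 hgi).countable
        rw [← Cardinal.mk_le_aleph0_iff] at h2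
        have h5 : Cardinal.mk (ℕ → Bool) = Cardinal.continuum := by simp
        rw [h5] at h2
        exact absurd h2 (not_le.2 Cardinal.aleph0_lt_continuum)
      obtain ⟨f, hf1, hf2, hf3⟩ := borel_perfect star_measurable hB' hunc
      refine ⟨f, hf1, fun c => (hf2 c).1, fun c d hcd => ?_⟩
      apply hf3
      obtain ⟨σ, hσ⟩ := (sameOrb_iff hN _ _).1 hcd
      obtain ⟨c', hc'⟩ := (hf2 c).2
      obtain ⟨d', hd'⟩ := (hf2 d).2
      rw [← hc', ← hd'] at hσ
      have := hg3 _ _ ⟨σ, hσ⟩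
      show star N (f c) = star N (f d)
      rw [← hc', ← hd', this]
  have hrep : ∀ v : ((fun y => Phi (star N y)) '' Cls Θ : Set (ℕ × ℕ → Bool)),
      ∃ x ∈ Cls Θ, Phi (star N x) = v.1 := fun v => v.2
  choose r hr1 hr2 using hrep
  choose C hC1 hC2 using fun v => hpc (r v) (hr1 v)
  have : Countable ((fun y => Phi (star N y)) '' Cls Θ : Set (ℕ × ℕ → Bool)) := hcount
  refine ⟨⋃ v, C v, countable_iUnion hC1, fun y hy => ?_⟩
  obtain ⟨c, hc, hσ⟩ := hC2 ⟨Phi (star N y), y, hy, rfl⟩ y hy (by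
    intro n w
    by_contra hno
    have hcl := (hfin _ (hr1 ⟨Phi (star N y), y, hy, rfl⟩) n).isClosed
    obtain ⟨k, hk1, hk2⟩ := Q_base n (ind n (star N y) w) _ hcl.isOpen_compl hno
    have h1 : Phi (star N y) (n, k) = true := by
      unfold Phi
      rw [decide_eq_true_iff]
      exact ⟨w, hk1⟩
    have h2 : Phi (star N (r ⟨Phi (star N y), y, hy, rfl⟩)) (n, k) = true := by
      rw [hr2 ⟨Phi (star N y), y, hy, rfl⟩]
      exact h1
    unfold Phi at h2
    rw [decide_eq_true_iff] at h2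
    obtain ⟨w', hw'⟩ := h2
    exact hk2 hw' ⟨w', rfl⟩)
  exact ⟨c, mem_iUnion.2 ⟨_, hc⟩, hσ⟩

end

/-! ### `F_σ` sets -/

section

variable {N : Type} [Group N] [MulAction N (Str a Z)] (hN : Local a Z N)
variable [∀ i, TopologicalSpace (Z i)]

theorem nhds_of_ini {x : Str a Z} {F : Filter (Str a Z)}
    (h : ∀ n, Tendsto (fun y : Str a Z => ini n y) F (𝓝 (ini n x))) : F ≤ 𝓝 x := by
  have h1 : Tendsto id F (𝓝 x) := by
    rw [tendsto_pi_nhds]
    intro i
    rw [tendsto_pi_nhds]
    intro t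
    obtain ⟨M, hM⟩ := (finite_range t).bddAbove
    have hM' : ∀ k, t k < M + 1 := fun k => Nat.lt_succ_of_le (hM ⟨k, rfl⟩)
    have h2 := tendsto_pi_nhds.1 (tendsto_pi_nhds.1 (h (M + 1)) i) (fun k => ⟨t k, hM' k⟩)
    exact h2
  exact h1

theorem mem_of_ini {F : Set (Str a Z)} (hF : IsClosed F) {x : Str a Z}
    (h : ∀ n, ini n x ∈ closure ((fun y : Str a Z => ini n y) '' F)) : x ∈ F := by
  rw [← hF.closure_eq, mem_closure_iff_clusterPt]
  let G : ℕ → Filter (Str a Z) := fun n => comap (fun y : Str a Z => ini n y) (𝓝 (ini n x)) ⊓ 𝓟 F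
  have hG : ∀ n, (G n).NeBot := by
    intro n
    rw [inf_principal_neBot_iff]
    rintro U ⟨V, hV, hVU⟩
    obtain ⟨_, h1, y, hy, rfl⟩ := mem_closure_iff_nhds.1 (h n) V hV
    exact ⟨y, hVU h1, hy⟩
  have hdir : ∀ n m, n ≤ m → G m ≤ G n := by
    intro n m hnm
    refine inf_le_inf_right _ ?_
    let r : FS a Z m → FS a Z n := fun q i u => q i (fun k => Fin.castLE hnm (u k))
    have hr : Continuous r := continuous_pi fun i => continuous_pi fun u =>
      (continuous_apply _).comp (continuous_apply i)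
    have h1 : (fun y : Str a Z => ini n y) = r ∘ (fun y : Str a Z => ini m y) := rfl
    rw [h1, ← comap_comap]
    exact comap_mono ((hr.tendsto (ini m x)).le_comap)
  have hne : (⨅ n, G n).NeBot :=
    iInf_neBot_of_directed' (fun n m => ⟨max n m, hdir _ _ (le_max_left _ _),
      hdir _ _ (le_max_right _ _)⟩) hG
  have hle : (⨅ n, G n) ≤ 𝓝 x := by
    apply nhds_of_ini
    intro n
    exact tendsto_comap.mono_left ((iInf_le G n).trans inf_le_left)
  exact hne.mono (le_inf hle ((iInf_le G 0).trans inf_le_right))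

include hN

/-- a local transformation induces continuous maps of the initial segments -/
theorem closure_local [TopologicalSpace N] [ContinuousSMul N (Str a Z)] {F : Set (Str a Z)}
    (hFN : ∀ (ν : N), ∀ x ∈ F, ν • x ∈ F) (n : ℕ) (ν : N) (x : Str a Z)
    (h : ini n x ∈ closure ((fun y : Str a Z => ini n y) '' F)) :
    ini n (ν • x) ∈ closure ((fun y : Str a Z => ini n y) '' F) := by
  classical
  let s : FS a Z n → Str a Z := fun q i t =>
    if ht : ∀ k, t k < n then q i (fun k => ⟨t k, ht k⟩) else x i t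
  have hs : Continuous s := by
    refine continuous_pi fun i => continuous_pi fun t => ?_
    by_cases ht : ∀ k, t k < n
    · have : (fun q : FS a Z n => s q i t) = fun q => q i (fun k => ⟨t k, ht k⟩) := by
        funext q; simp only [s, dif_pos ht]
      rw [this]
      exact (continuous_apply _).comp (continuous_apply i)
    · have : (fun q : FS a Z n => s q i t) = fun _ => x i t := by
        funext q; simp only [s, dif_neg ht]
      rw [this]
      exact continuous_const
  have hsi : ∀ q, ini n (s q) = q := by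
    intro q
    funext i u
    exact dif_pos (fun k => (u k).2)
  have hf : Continuous (fun q : FS a Z n => ini n (ν • s q)) :=
    (continuous_ini n).comp ((continuous_const_smul ν).comp hs)
  have h1 : (fun q : FS a Z n => ini n (ν • s q)) (ini n x) ∈
      closure ((fun q : FS a Z n => ini n (ν • s q)) '' ((fun y : Str a Z => ini n y) '' F)) :=
    image_closure_subset_closure_image hf ⟨_, h, rfl⟩
  have h2 : ini n (ν • s (ini n x)) = ini n (ν • x) := hN.loc ν n _ _ (hsi _)
  have h3 : (fun q : FS a Z n => ini n (ν • s q)) '' ((fun y : Str a Z => ini n y) '' F) ⊆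
      (fun y : Str a Z => ini n y) '' F := by
    rintro _ ⟨_, ⟨y, hy, rfl⟩, rfl⟩
    exact ⟨ν • y, hFN ν y hy, (hN.loc ν n _ _ (hsi _)).symm⟩
  have h4 := closure_mono h3 h1
  change ini n (ν • s (ini n x)) ∈ _ at h4
  rwa [h2] at h4

/-- invariant `F_σ` sets are given by conditions on initial segments -/
theorem fsigma [TopologicalSpace N] [CompactSpace N] [ContinuousSMul N (Str a Z)]
    (F : ℕ → Set (Str a Z)) (hF : ∀ k, IsClosed (F k)) (B : Set (Str a Z)) (hB : B = ⋃ k, F k)
    (hBN : ∀ (ν : N), ∀ x ∈ B, ν • x ∈ B) :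
    ∃ Θ : ℕ → (n : ℕ) → Set (FS a Z n), (∀ k n, IsClosed (Θ k n)) ∧
      (∀ k n (ν : N) (x : Str a Z), ini n x ∈ Θ k n → ini n (ν • x) ∈ Θ k n) ∧ B = Cls Θ := by
  let F' : ℕ → Set (Str a Z) := fun k => {x | ∃ ν : N, ν • x ∈ F k}
  have hF' : ∀ k, IsClosed (F' k) := by
    intro k
    have h1 : IsClosed {p : N × Str a Z | p.1 • p.2 ∈ F k} := (hF k).preimage continuous_smul
    have h2 := isClosedMap_snd_of_compactSpace (X := N) (Y := Str a Z) _ h1
    have h3 : Prod.snd '' {p : N × Str a Z | p.1 • p.2 ∈ F k} = F' k := by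
      ext x
      constructor
      · rintro ⟨⟨ν, y⟩, h, rfl⟩
        exact ⟨ν, h⟩
      · rintro ⟨ν, h⟩
        exact ⟨(ν, x), h, rfl⟩
    rwa [h3] at h2
  have hF'N : ∀ k (ν : N), ∀ x ∈ F' k, ν • x ∈ F' k := by
    rintro k ν x ⟨μ, h⟩
    exact ⟨μ * ν⁻¹, by rwa [mul_smul, inv_smul_smul]⟩
  have hBF : B = ⋃ k, F' k := by
    ext x
    constructor
    · intro hx
      rw [hB] at hx
      obtain ⟨k, hk⟩ := mem_iUnion.1 hx
      exact mem_iUnion.2 ⟨k, 1, by rwa [one_smul]⟩
    · intro hx
      obtain ⟨k, ν, h⟩ := mem_iUnion.1 hx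
      have h1 : ν • x ∈ B := by rw [hB]; exact mem_iUnion.2 ⟨k, h⟩
      have h2 := hBN ν⁻¹ _ h1
      rwa [inv_smul_smul] at h2
  refine ⟨fun k n => closure ((fun y : Str a Z => ini n y) '' F' k), fun k n => isClosed_closure,
    fun k n ν x h => closure_local hN (hF'N k) n ν x h, ?_⟩
  rw [hBF]
  ext x
  constructor
  · intro hx
    obtain ⟨k, hk⟩ := mem_iUnion.1 hx
    exact ⟨k, fun n => subset_closure ⟨x, hk, rfl⟩⟩
  · rintro ⟨k, hk⟩
    exact mem_iUnion.2 ⟨k, mem_of_ini (hF' k) hk⟩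

end

end Pool.Agent.K1H66.TV
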