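import Pool.Agent.K1H66.TV.Perf
import Pool.Agent.K1H66.TV.Comb
import Pool.Agent.H566X.Main

/-!
# The dichotomy for `Σ₂` classes over quantifier-free Borel conditions
-/

set_option autoImplicit false

namespace Pool.Agent.K1H66.TV

open Set Filter Topology

variable {a : ℕ → ℕ} {Z : ℕ → Type}

/-- `σ` is an isomorphism from `x` to `y`. -/
def IsoBy (σ : Equiv.Perm ℕ) (x y : Str a Z) : Prop := ∀ i t, y i (σ ∘ t) = x i t

theorem isoBy_iff (σ : Equiv.Perm ℕ) (x y : Str a Z) : IsoBy σ x y ↔ x = pull y σ := by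
  constructor
  · intro h
    funext i t
    exact (h i t).symm
  · rintro rfl i t
    rfl

theorem exists_base (X : Type) [TopologicalSpace X] [SecondCountableTopology X] :
    ∃ Q : ℕ → Set X, (∀ k, IsOpen (Q k)) ∧ ∀ (x : X) (U : Set X), IsOpen U → x ∈ U →
      ∃ k, x ∈ Q k ∧ Q k ⊆ U := by
  obtain ⟨b, hb1, -, hb2⟩ := TopologicalSpace.exists_countable_basis X
  rcases b.eq_empty_or_nonempty with rfl | hne
  · refine ⟨fun _ => ∅, fun _ => isOpen_empty, fun x U hU hx => ?_⟩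
    obtain ⟨v, hv, -⟩ := hb2.exists_subset_of_mem_open hx hU
    exact absurd hv (notMem_empty v)
  · obtain ⟨f, rfl⟩ := hb1.exists_eq_range hne
    refine ⟨f, fun k => hb2.isOpen (mem_range_self k), fun x U hU hx => ?_⟩
    obtain ⟨v, ⟨k, rfl⟩, h1, h2⟩ := hb2.exists_subset_of_mem_open hx hU
    exact ⟨k, h1, h2⟩

section

variable [∀ i, TopologicalSpace (Z i)] [∀ i, PolishSpace (Z i)]

/-- a countable base of the space of structures with `n` elements -/
noncomputable def Q (a : ℕ → ℕ) (Z : ℕ → Type) [∀ i, TopologicalSpace (Z i)]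
    [∀ i, PolishSpace (Z i)] (n : ℕ) : ℕ → Set (FS a Z n) := (exists_base (FS a Z n)).choose

theorem Q_open (n k : ℕ) : IsOpen (Q a Z n k) := (exists_base (FS a Z n)).choose_spec.1 k

theorem Q_base (n : ℕ) (x : FS a Z n) (U : Set (FS a Z n)) (hU : IsOpen U) (hx : x ∈ U) :
    ∃ k, x ∈ Q a Z n k ∧ Q a Z n k ⊆ U := (exists_base (FS a Z n)).choose_spec.2 x U hU hx

open Classical in
/-- the closures of the sets of induced structures -/
noncomputable def Phi (x : Str a Z) : ℕ × ℕ → Bool :=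
  fun q => decide (∃ w : Fin q.1 → ℕ, ind q.1 x w ∈ Q a Z q.1 q.2)

omit [∀ i, PolishSpace (Z i)] in
theorem continuous_ind (n : ℕ) (w : Fin n → ℕ) :
    Continuous (fun x : Str a Z => ind n x w) := by
  refine continuous_pi fun i => continuous_pi fun u => ?_
  exact (continuous_apply (w ∘ u)).comp (continuous_apply i)

theorem phi_iso {σ : Equiv.Perm ℕ} {x y : Str a Z} (h : IsoBy σ x y) : Phi x = Phi y := by
  rw [isoBy_iff] at h
  funext q
  unfold Phi
  rw [decide_eq_decide]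
  constructor
  · rintro ⟨w, hw⟩
    refine ⟨σ ∘ w, ?_⟩
    rw [h, ind_pull] at hw
    exact hw
  · rintro ⟨w, hw⟩
    refine ⟨σ.symm ∘ w, ?_⟩
    rw [h, ind_pull]
    have : σ ∘ (σ.symm ∘ w) = w := by
      funext i; simp
    rw [this]
    exact hw

theorem phi_measurable [∀ i, MeasurableSpace (Z i)] [∀ i, BorelSpace (Z i)] :
    Measurable (Phi : Str a Z → ℕ × ℕ → Bool) := by
  refine measurable_pi_lambda _ fun q => measurable_to_bool ?_
  have h : (fun x : Str a Z => Phi x q) ⁻¹' {true} =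
      ⋃ w : Fin q.1 → ℕ, (fun x => ind q.1 x w) ⁻¹' Q a Z q.1 q.2 := by
    ext x
    simp [Phi]
  rw [h]
  exact (isOpen_iUnion fun w => (Q_open q.1 q.2).preimage (continuous_ind q.1 w)).measurableSet

/-- the class -/
def Cls (Θ : ℕ → (n : ℕ) → Set (FS a Z n)) : Set (Str a Z) := {x | ∃ k, ∀ n, ini n x ∈ Θ k n}

/-- invariance -/
def Invt (B : Set (Str a Z)) : Prop := ∀ x ∈ B, ∀ σ : Equiv.Perm ℕ, pull x σ ∈ B

omit [∀ i, TopologicalSpace (Z i)] [∀ i, PolishSpace (Z i)] in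
theorem hered (Θ : ℕ → (n : ℕ) → Set (FS a Z n)) (hi : Invt (Cls Θ)) (x : Str a Z)
    (hx : x ∈ Cls Θ) : ∃ s : Finset ℕ, ∀ D : Set ℕ, D.Infinite → (∀ i ∈ s, i ∈ D) →
      ∃ e : ℕ → ℕ, Function.Injective e ∧ range e = D ∧ pull x e ∈ Cls Θ :=
  exists_hered x Θ (fun e he => by
    have := hi x hx (Equiv.ofBijective e he)
    exact this)

theorem unc_gen {b : ℕ → ℕ} {Y : ℕ → Type} (B : Set (Str b Y)) (st : Str b Y → Str a Z)
    (hst : ∀ (x : Str b Y) (e : ℕ → ℕ), Function.Injective e → st (pull x e) = pull (st x) e)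
    (x₁ : Str b Y) (s : Finset ℕ) (hs₁ : ∀ D : Set ℕ, D.Infinite → (∀ i ∈ s, i ∈ D) →
      ∃ e : ℕ → ℕ, Function.Injective e ∧ range e = D ∧ pull x₁ e ∈ B) (n : ℕ)
    (hinf : (range (ind n (st x₁))).Infinite) :
    ¬ ((fun y => Phi (st y)) '' B).Countable := by
  classical
  let x := st x₁
  have hs : ∀ D : Set ℕ, D.Infinite → (∀ i ∈ s, i ∈ D) →
      ∃ e : ℕ → ℕ, Function.Injective e ∧ range e = D ∧ pull x e ∈ st '' B := by
    intro D hD hsD
    obtain ⟨e, h1, h2, h3⟩ := hs₁ D hD hsD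
    exact ⟨e, h1, h2, pull x₁ e, h3, hst x₁ e h1⟩
  change (range (ind n x)).Infinite at hinf
  let W := range (ind n x)
  have hWi : Infinite W := hinf.to_subtype
  obtain ⟨U', hU1, hU2, hU3⟩ := exists_seq_infinite_isOpen_pairwise_disjoint (X := W)
  have hne : ∀ j, ∃ t : Fin n → ℕ, (⟨ind n x t, t, rfl⟩ : W) ∈ U' j := by
    intro j
    obtain ⟨⟨_, t, rfl⟩, hz⟩ := (hU1 j).nonempty
    exact ⟨t, hz⟩
  choose t ht using hne
  have hO : ∀ j, ∃ O : Set (FS a Z n), IsOpen O ∧ Subtype.val ⁻¹' O = U' j :=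
    fun j => isOpen_induced_iff.1 (hU2 j)
  choose O hO1 hO2 using hO
  have hκ : ∀ j, ∃ k, ind n x (t j) ∈ Q a Z n k ∧ Q a Z n k ⊆ O j := by
    intro j
    apply Q_base n _ (O j) (hO1 j)
    have := ht j
    rw [← hO2 j] at this
    exact this
  choose κ hκ1 hκ2 using hκ
  let U : ℕ → Set (FS a Z n) := fun j => Subtype.val '' U' j
  have hU : ∀ i j, i ≠ j → Disjoint (U i) (U j) := by
    intro i j hij
    exact (disjoint_image_iff Subtype.val_injective).2 (hU3 hij)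
  have hQU : ∀ j w, ind n x w ∈ Q a Z n (κ j) → ind n x w ∈ U j := by
    intro j w hw
    refine ⟨⟨ind n x w, w, rfl⟩, ?_, rfl⟩
    rw [← hO2 j]
    exact hκ2 j hw
  obtain ⟨H, hH, hfree⟩ := exists_free n (ind n x) U hU t s
  let g : ℕ → ℕ := Nat.nth (· ∈ H)
  have hg : StrictMono g := Nat.nth_strictMono hH
  have hgH : ∀ k, g k ∈ H := fun k => Nat.nth_mem_of_infinite hH k
  -- index sets
  let A : (ℕ → Bool) → Set ℕ := fun c => range fun k => g (2 * k + if c k = true then 1 else 0)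
  have hAH : ∀ c, A c ⊆ H := by
    rintro c _ ⟨k, rfl⟩
    exact hgH _
  have hAinf : ∀ c, (A c).Infinite := by
    intro c
    apply infinite_range_of_injective
    intro k l hkl
    have := hg.injective hkl
    by_cases h1 : c k = true <;> by_cases h2 : c l = true <;> simp [h1, h2] at this <;> omega
  have hAmem : ∀ c k, g (2 * k + 1) ∈ A c ↔ c k = true := by
    intro c k
    constructor
    · rintro ⟨l, hl⟩
      have h1 := hg.injective hl
      by_cases h2 : c l = true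
      · simp only [h2, if_true] at h1
        have : l = k := by omega
        rwa [← this]
      · simp only [h2] at h1
        exfalso
        simp only [Bool.false_eq_true, if_false] at h1
        omega
    · intro h
      exact ⟨k, by simp [h]⟩
  let D : (ℕ → Bool) → Set ℕ := fun c => {y | y ∈ s ∨ ∃ j ∈ A c, ∃ i, y = t j i}
  have htinj : ∀ i j, t i = t j → i = j := by
    intro i j h
    by_contra hne
    have h1 : ind n x (t i) ∈ U i := ⟨_, ht i, rfl⟩
    have h2 : ind n x (t j) ∈ U j := ⟨_, ht j, rfl⟩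
    rw [h] at h1
    exact disjoint_left.1 (hU i j hne) h1 h2
  have hDinf : ∀ c, (D c).Infinite := by
    intro c hfin
    apply hAinf c
    have h1 : (Set.pi univ (fun _ : Fin n => D c)).Finite := Set.Finite.pi (fun _ => hfin)
    refine Set.Finite.of_finite_image (f := t) (h1.subset ?_) (fun i _ j _ h => htinj i j h)
    rintro _ ⟨j, hj, rfl⟩ i _
    exact Or.inr ⟨j, hj, i, rfl⟩
  choose e he1 he2 he3 using fun c => hs (D c) (hDinf c) (fun i hi => Or.inl hi)
  have hmem : ∀ c, pull x (e c) ∈ st '' B := fun c => he3 c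
  have hPhi : ∀ c, ∀ j ∈ H, Phi (pull x (e c)) (n, κ j) = true ↔ j ∈ A c := by
    intro c j hj
    unfold Phi
    rw [decide_eq_true_iff]
    constructor
    · rintro ⟨w, hw⟩
      rw [ind_pull] at hw
      refine hfree (A c) (hAH c) (hAinf c).nonempty (e c ∘ w) (fun i => ?_) j hj (hQU j _ hw)
      have : e c (w i) ∈ D c := by
        rw [← he2 c]
        exact mem_range_self _
      exact this
    · intro hjA
      have h1 : ∀ i, ∃ m, e c m = t j i := by
        intro i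
        have : t j i ∈ D c := Or.inr ⟨j, hjA, i, rfl⟩
        rw [← he2 c] at this
        exact this
      choose w hw using h1
      refine ⟨w, ?_⟩
      rw [ind_pull]
      have : e c ∘ w = t j := funext hw
      rw [this]
      exact hκ1 j
  intro hcount
  have hcount' : (Phi '' (st '' B)).Countable := by
    rw [image_image]
    exact hcount
  have hinj : Function.Injective (fun c => (⟨Phi (pull x (e c)), _, hmem c, rfl⟩ :
      (Phi '' (st '' B) : Set (ℕ × ℕ → Bool)))) := by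
    intro c c' h
    have h1 : Phi (pull x (e c)) = Phi (pull x (e c')) := congrArg Subtype.val h
    funext k
    have h2 := hPhi c _ (hgH (2 * k + 1))
    have h3 := hPhi c' _ (hgH (2 * k + 1))
    rw [h1] at h2
    rw [h2, hAmem] at h3
    rw [hAmem] at h3
    exact Bool.eq_iff_iff.2 h3
  have : Countable (Phi '' (st '' B) : Set (ℕ × ℕ → Bool)) := hcount'
  have h4 : Countable (ℕ → Bool) := hinj.countable
  rw [← Cardinal.mk_le_aleph0_iff] at h4
  have h5 : Cardinal.mk (ℕ → Bool) = Cardinal.continuum := by simp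
  rw [h5] at h4
  exact absurd h4 (not_le.2 Cardinal.aleph0_lt_continuum)

theorem unc (Θ : ℕ → (n : ℕ) → Set (FS a Z n)) (hi : Invt (Cls Θ)) (x : Str a Z)
    (hx : x ∈ Cls Θ) (n : ℕ) (hinf : (range (ind n x)).Infinite) :
    ¬ (Phi '' Cls Θ).Countable := by
  obtain ⟨s, hs⟩ := hered Θ hi x hx
  exact unc_gen (Cls Θ) id (fun _ _ _ => rfl) x s hs n hinf

/-! ### The compact pieces -/

/-- the structures all of whose finite induced structures occur in `x₀` -/
abbrev Xs (x₀ : Str a Z) : Type := {y : Str a Z // ∀ n w, ind n y w ∈ range (ind n x₀)}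

instance (x₀ : Str a Z) : MulAction (Equiv.Perm ℕ) (Xs x₀) where
  smul σ y := ⟨pull y.1 σ.symm, fun n w => by
    rw [ind_pull]
    exact y.2 n _⟩
  one_smul y := rfl
  mul_smul σ τ y := rfl

omit [∀ i, TopologicalSpace (Z i)] [∀ i, PolishSpace (Z i)] in
theorem smul_val (x₀ : Str a Z) (σ : Equiv.Perm ℕ) (y : Xs x₀) :
    (σ • y).1 = pull y.1 σ.symm := rfl

variable (x₀ : Str a Z) (hfin : ∀ n, (range (ind n x₀)).Finite)

omit [∀ i, TopologicalSpace (Z i)] [∀ i, PolishSpace (Z i)] in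
theorem fin_val (i : ℕ) (hfin : ∀ n, (range (ind n x₀)).Finite) :
    (range (x₀ i)).Finite := by
  refine ((hfin (a i)).image (fun z => z i id)).subset ?_
  rintro _ ⟨t, rfl⟩
  exact ⟨ind (a i) x₀ t, ⟨t, rfl⟩, rfl⟩

omit [∀ i, TopologicalSpace (Z i)] [∀ i, PolishSpace (Z i)] in
theorem val_mem (y : Xs x₀) (i : ℕ) (t : Fin (a i) → ℕ) : y.1 i t ∈ range (x₀ i) := by
  obtain ⟨w, hw⟩ := y.2 (a i) t
  refine ⟨w, ?_⟩
  have := congrFun (congrFun hw i) id
  exact this

include hfin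

theorem compact_Xs : CompactSpace (Xs x₀) := by
  have h1 : IsCompact {y : Str a Z | ∀ n w, ind n y w ∈ range (ind n x₀)} := by
    have h2 : IsCompact (Set.pi univ fun i => Set.pi univ fun _ : Fin (a i) → ℕ => range (x₀ i)) :=
      isCompact_univ_pi fun i => isCompact_univ_pi fun _ => (fin_val x₀ i hfin).isCompact
    refine h2.of_isClosed_subset ?_ ?_
    · have : {y : Str a Z | ∀ n w, ind n y w ∈ range (ind n x₀)} =
          ⋂ n, ⋂ w, (fun y => ind n y w) ⁻¹' range (ind n x₀) := by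
        ext y; simp
      rw [this]
      exact isClosed_iInter fun n => isClosed_iInter fun w =>
        (hfin n).isClosed.preimage (continuous_ind n w)
    · intro y hy i _ t _
      exact val_mem x₀ ⟨y, hy⟩ i t
  exact isCompact_iff_compactSpace.1 h1

omit hfin in
theorem metrizable_Xs : TopologicalSpace.MetrizableSpace (Xs x₀) := by
  have h1 : PolishSpace (Str a Z) := inferInstance
  have h2 : TopologicalSpace.MetrizableSpace (Str a Z) := inferInstance
  exact Topology.IsEmbedding.subtypeVal.metrizableSpace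

omit hfin [∀ i, PolishSpace (Z i)] in
theorem cont_val (i : ℕ) (t : Fin (a i) → ℕ) : Continuous (fun y : Xs x₀ => y.1 i t) := by
  have h1 : Continuous (fun y : Str a Z => y i t) := (continuous_apply t).comp (continuous_apply i)
  exact h1.comp continuous_subtype_val

theorem td_Xs : TotallyDisconnectedSpace (Xs x₀) := by
  refine ⟨fun S _ hS y hy z hz => ?_⟩
  apply Subtype.ext
  funext i t
  have hc : Continuous (fun y : Xs x₀ => y.1 i t) := cont_val x₀ i t
  have h1 := hS.image _ hc.continuousOn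
  have h2 : ((fun y : Xs x₀ => y.1 i t) '' S).Finite := by
    refine (fin_val x₀ i hfin).subset ?_
    rintro _ ⟨y, -, rfl⟩
    exact val_mem x₀ y i t
  have h3 := (isPreconnected_iff_preconnectedSpace.1 h1)
  have h4 : Finite ((fun y : Xs x₀ => y.1 i t) '' S) := h2.to_subtype
  have h5 : Subsingleton ((fun y : Xs x₀ => y.1 i t) '' S) :=
    PreconnectedSpace.trivial_of_discrete
  exact congrArg Subtype.val (h5.elim ⟨_, y, hy, rfl⟩ ⟨_, z, hz, rfl⟩)

omit hfin in
theorem contAct_Xs : Pool.Agent.H566X.ContAct (Xs x₀) := by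
  intro σ x U hU hx
  by_contra hcon
  push Not at hcon
  have := metrizable_Xs x₀
  obtain ⟨V, hV⟩ := (𝓝 x).exists_antitone_basis
  have h1 : ∀ n, ∃ (τ : Equiv.Perm ℕ) (y : Xs x₀), (∀ i < n, τ i = σ i) ∧ y ∈ V n ∧ τ • y ∉ U := by
    intro n
    obtain ⟨V', hV'1, hV'2, hV'3⟩ := mem_nhds_iff.1 (hV.1.mem_of_mem (i := n) trivial)
    obtain ⟨τ, h1, y, h2, h3⟩ := hcon n V' hV'2 hV'3
    exact ⟨τ, y, h1, hV'1 h2, h3⟩
  choose τ y h2 h3 h4 using h1
  have h5 : Tendsto y atTop (𝓝 x) := hV.tendsto h3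
  have h6 : Tendsto (fun n => τ n • y n) atTop (𝓝 (σ • x)) := by
    rw [tendsto_subtype_rng]
    rw [tendsto_pi_nhds]
    intro i
    rw [tendsto_pi_nhds]
    intro t
    have h7 : Tendsto (fun n => (y n).1 i (σ.symm ∘ t)) atTop (𝓝 (x.1 i (σ.symm ∘ t))) := by
      have hc : Continuous (fun y : Xs x₀ => y.1 i (σ.symm ∘ t)) := cont_val x₀ i _
      exact (hc.tendsto x).comp h5
    refine h7.congr' ?_
    obtain ⟨M, hM⟩ : ∃ M, ∀ k, σ.symm (t k) < M := by
      obtain ⟨M, hM⟩ := (finite_range (fun k => σ.symm (t k))).bddAbove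
      exact ⟨M + 1, fun k => Nat.lt_succ_of_le (hM ⟨k, rfl⟩)⟩
    filter_upwards [eventually_ge_atTop M] with n hn
    show (y n).1 i (σ.symm ∘ t) = (y n).1 i ((τ n).symm ∘ t)
    have e : σ.symm ∘ t = (τ n).symm ∘ t := by
      funext k
      show σ.symm (t k) = (τ n).symm (t k)
      rw [Equiv.eq_symm_apply, h2 n _ (lt_of_lt_of_le (hM k) hn), Equiv.apply_symm_apply]
    rw [e]
  have h7 := h6.eventually (hU.mem_nhds hx)
  obtain ⟨n, hn⟩ := h7.exists
  exact h4 n hn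

theorem piece (Θ : ℕ → (n : ℕ) → Set (FS a Z n)) (hi : Invt (Cls Θ)) :
    (∃ C : Set (Str a Z), C.Countable ∧ ∀ y ∈ Cls Θ, (∀ n w, ind n y w ∈ range (ind n x₀)) →
      ∃ c ∈ C, ∃ σ : Equiv.Perm ℕ, IsoBy σ c y) ∨
    (∃ g : (ℕ → Bool) → Str a Z, Continuous g ∧ (∀ c, g c ∈ Cls Θ) ∧
      ∀ c d, (∃ σ : Equiv.Perm ℕ, IsoBy σ (g c) (g d)) → c = d) := by
  have i1 := compact_Xs x₀ hfin
  have i2 := metrizable_Xs x₀
  have i3 := td_Xs x₀ hfin
  have hFk : ∀ k, IsClosed {y : Xs x₀ | ∀ n, ini n y.1 ∈ Θ k n} := by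
    intro k
    have : {y : Xs x₀ | ∀ n, ini n y.1 ∈ Θ k n} =
        ⋂ n, (fun y : Xs x₀ => ini n y.1) ⁻¹' (Θ k n ∩ range (ind n x₀)) := by
      ext y
      simp only [mem_ofPred_eq, mem_iInter, mem_preimage, mem_inter_iff]
      exact ⟨fun h n => ⟨h n, y.2 n _⟩, fun h n => (h n).1⟩
    rw [this]
    refine isClosed_iInter fun n => ((hfin n).subset inter_subset_right).isClosed.preimage ?_
    exact (continuous_ind n _).comp continuous_subtype_val
  have hsm : ∀ (y : Xs x₀) (σ : Equiv.Perm ℕ), IsoBy σ y.1 (σ • y).1 := by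
    intro y σ
    rw [isoBy_iff, smul_val]
    funext i t
    show y.1 i t = y.1 i (σ.symm ∘ (σ ∘ t))
    have e : σ.symm ∘ (σ ∘ t) = t := by
      funext k; simp
    rw [e]
  rcases Pool.Agent.H566X.main_TOP (Xs x₀) (contAct_Xs x₀)
    (⋃ k, {y : Xs x₀ | ∀ n, ini n y.1 ∈ Θ k n}) ⟨_, hFk, rfl⟩ (by
      intro y hy σ
      obtain ⟨k, hk⟩ := mem_iUnion.1 hy
      have h1 : y.1 ∈ Cls Θ := ⟨k, hk⟩
      obtain ⟨l, hl⟩ := hi _ h1 σ.symm
      exact mem_iUnion.2 ⟨l, hl⟩) with ⟨C, hC1, hC2⟩ | ⟨P, hP1, hP2, hP3, hP4⟩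
  · left
    refine ⟨Subtype.val '' C, hC1.image _, fun y hy hyx => ?_⟩
    obtain ⟨k, hk⟩ := hy
    obtain ⟨c, hc, σ, hσ⟩ := hC2 ⟨y, hyx⟩ (mem_iUnion.2 ⟨k, hk⟩)
    refine ⟨c.1, ⟨c, hc, rfl⟩, σ, ?_⟩
    have := hsm c σ
    rw [hσ] at this
    exact this
  · right
    let _ := TopologicalSpace.metrizableSpaceMetric (Xs x₀)
    obtain ⟨f, hf1, hf2, hf3⟩ := hP2.exists_nat_bool_injection hP1
    refine ⟨fun c => (f c).1, continuous_subtype_val.comp hf2, fun c => ?_, fun c d hcd => ?_⟩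
    · obtain ⟨k, hk⟩ := mem_iUnion.1 (hP3 (hf1 (mem_range_self c)))
      exact ⟨k, hk⟩
    · obtain ⟨σ, hσ⟩ := hcd
      apply hf3
      refine hP4 _ (hf1 (mem_range_self c)) _ (hf1 (mem_range_self d)) ⟨σ, ?_⟩
      apply Subtype.ext
      rw [isoBy_iff] at hσ
      have hσ' : (f c).1 = pull (f d).1 σ := hσ
      rw [smul_val, hσ']
      funext i t
      show (f d).1 i (σ ∘ (σ.symm ∘ t)) = (f d).1 i t
      have e : σ ∘ (σ.symm ∘ t) = t := by
        funext k; simp
      rw [e]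

end

/-- **The dichotomy.** -/
theorem main [∀ i, TopologicalSpace (Z i)] [∀ i, PolishSpace (Z i)] [∀ i, MeasurableSpace (Z i)]
    [∀ i, BorelSpace (Z i)] (Θ : ℕ → (n : ℕ) → Set (FS a Z n))
    (hΘ : ∀ k n, MeasurableSet (Θ k n)) (hi : Invt (Cls Θ)) :
    (∃ C : Set (Str a Z), C.Countable ∧ ∀ y ∈ Cls Θ, ∃ c ∈ C, ∃ σ : Equiv.Perm ℕ, IsoBy σ c y) ∨
    (∃ g : (ℕ → Bool) → Str a Z, Continuous g ∧ (∀ c, g c ∈ Cls Θ) ∧
      ∀ c d, (∃ σ : Equiv.Perm ℕ, IsoBy σ (g c) (g d)) → c = d) := by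
  classical
  by_cases hfew : ∃ g : (ℕ → Bool) → Str a Z, Continuous g ∧ (∀ c, g c ∈ Cls Θ) ∧
      ∀ c d, (∃ σ : Equiv.Perm ℕ, IsoBy σ (g c) (g d)) → c = d
  · exact Or.inr hfew
  left
  have hB : MeasurableSet (Cls Θ) := by
    have : Cls Θ = ⋃ k, ⋂ n, (fun x : Str a Z => ini n x) ⁻¹' Θ k n := by
      ext x; simp [Cls]
    rw [this]
    exact MeasurableSet.iUnion fun k => MeasurableSet.iInter fun n =>
      (continuous_ind n _).measurable (hΘ k n)
  have hcount : (Phi '' Cls Θ).Countable := by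
    by_contra hc
    obtain ⟨g, hg1, hg2, hg3⟩ := borel_perfect phi_measurable hB hc
    exact hfew ⟨g, hg1, hg2, fun c d ⟨σ, hσ⟩ => hg3 (phi_iso hσ)⟩
  have hfin : ∀ x ∈ Cls Θ, ∀ n, (range (ind n x)).Finite := by
    intro x hx n
    by_contra h
    exact unc Θ hi x hx n h hcount
  have hpc : ∀ x ∈ Cls Θ, ∃ C : Set (Str a Z), C.Countable ∧ ∀ y ∈ Cls Θ,
      (∀ n w, ind n y w ∈ range (ind n x)) → ∃ c ∈ C, ∃ σ : Equiv.Perm ℕ, IsoBy σ c y := by
    intro x hx
    rcases piece x (hfin x hx) Θ hi with h | h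
    · exact h
    · exact absurd h hfew
  have hrep : ∀ v : (Phi '' Cls Θ : Set (ℕ × ℕ → Bool)), ∃ x ∈ Cls Θ, Phi x = v.1 := fun v => v.2
  choose r hr1 hr2 using hrep
  choose C hC1 hC2 using fun v => hpc (r v) (hr1 v)
  have : Countable (Phi '' Cls Θ : Set (ℕ × ℕ → Bool)) := hcount
  refine ⟨⋃ v, C v, countable_iUnion hC1, fun y hy => ?_⟩
  obtain ⟨c, hc, σ, hσ⟩ := hC2 ⟨Phi y, y, hy, rfl⟩ y hy (by
    intro n w
    by_contra hno
    have hcl := (hfin _ (hr1 ⟨Phi y, y, hy, rfl⟩) n).isClosed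
    obtain ⟨k, hk1, hk2⟩ := Q_base n (ind n y w) _ hcl.isOpen_compl hno
    have h1 : Phi y (n, k) = true := by
      unfold Phi
      rw [decide_eq_true_iff]
      exact ⟨w, hk1⟩
    have h2 : Phi (r ⟨Phi y, y, hy, rfl⟩) (n, k) = true := by
      rw [hr2 ⟨Phi y, y, hy, rfl⟩]
      exact h1
    unfold Phi at h2
    rw [decide_eq_true_iff] at h2
    obtain ⟨w', hw'⟩ := h2
    exact hk2 hw' ⟨w', rfl⟩)
  exact ⟨c, mem_iUnion.2 ⟨_, hc⟩, σ, hσ⟩

end Pool.Agent.K1H66.TV
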